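import Pool.Agent.Helper89.A8.Stmts

/-!
# Blocks M13: `bM3E`, `bM3C`
-/

set_option autoImplicit false

namespace Pool.Agent.A8

open Submodule

/-- a nonzero homomorphism between simple modules is bijective -/
theorem M13_surj (h2 : S_SIM) {a : Ty} {X : Type*} [AddCommGroup X] [Module RG X]
    (f : X →ₗ[RG] Md a) {x : X} (hx : f x ≠ 0) : Function.Surjective f := by
  have := h2 a
  rw [← LinearMap.range_eq_top]
  rcases eq_bot_or_eq_top (LinearMap.range f) with h | h
  · exfalso
    rw [LinearMap.range_eq_bot] at h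
    exact hx (by rw [h]; rfl)
  · exact h

theorem M13_finq {X : Type*} [AddCommGroup X] [Module RG X] [Finite X] (N : Submodule RG X) :
    Finite (X ⧸ N) := Finite.of_surjective _ (Submodule.mkQ_surjective N)

/-- splitting lemma -/
theorem M13_split (h1 : S_M3) (h2 : S_SIM) {a : Ty} (ha : a ≠ .l) {E : Type} [AddCommGroup E]
    [Module RG E] [Finite E] (i : Md a →ₗ[RG] E) (hi : Function.Injective i)
    (hA : ∀ N1 P1 : Submodule RG E, N1 ⋖ P1 → LinearMap.range i ≤ N1 → SecIso a N1 P1) :
    ∃ r : E →ₗ[RG] Md a, ∀ m, r (i m) = m := by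
  classical
  have hs := h2 a
  set A := LinearMap.range i with hAdef
  -- maximal complement-like submodule
  obtain ⟨C, hC1, hC2⟩ : ∃ C : Submodule RG E, A ⊓ C = ⊥ ∧
      ∀ D : Submodule RG E, A ⊓ D = ⊥ → C ≤ D → D ≤ C := by
    have hfin : Set.Finite {C : Submodule RG E | A ⊓ C = ⊥} := Set.toFinite _
    have hne : Set.Nonempty {C : Submodule RG E | A ⊓ C = ⊥} := ⟨⊥, by simp⟩
    obtain ⟨C, hC⟩ := hfin.exists_maximal hne
    exact ⟨C, hC.1, fun D hD hCD => hC.2 hD hCD⟩
  have htop : A ⊔ C = ⊤ := by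
    by_contra hne
    obtain ⟨Q, hQ, -⟩ := exists_covBy_le_of_lt (lt_top_iff_ne_top.2 hne)
    obtain ⟨f, hf, hfk⟩ := hA _ _ hQ le_sup_left
    have hAQ : A ≤ Q := le_sup_left.trans hQ.le
    have hCQ : C ≤ Q := le_sup_right.trans hQ.le
    -- X1 = Q / C
    set C' : Submodule RG Q := C.comap Q.subtype with hC'
    have hC'k : C' ≤ LinearMap.ker f := by
      intro x hx
      rw [LinearMap.mem_ker, hfk]
      exact (le_sup_right : C ≤ A ⊔ C) hx
    let q : (Q ⧸ C') →ₗ[RG] Md a := C'.liftQ f hC'k
    have hqmk : ∀ x : Q, q (Submodule.Quotient.mk x) = f x := fun x => C'.liftQ_apply f x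
    let iQ : Md a →ₗ[RG] Q := i.codRestrict Q (fun m => hAQ ⟨m, rfl⟩)
    let i1 : Md a →ₗ[RG] (Q ⧸ C') := C'.mkQ.comp iQ
    have hi1 : Function.Injective i1 := by
      rw [← LinearMap.ker_eq_bot, LinearMap.ker_eq_bot']
      intro m hm
      have h3 : iQ m ∈ C' := (Submodule.Quotient.mk_eq_zero C').1 hm
      have h4 : i m ∈ A ⊓ C := ⟨⟨m, rfl⟩, h3⟩
      rw [hC1, Submodule.mem_bot] at h4
      exact hi (by rw [h4, map_zero])
    have hqs : Function.Surjective q := by
      intro m
      obtain ⟨x, hx⟩ := hf m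
      exact ⟨Submodule.Quotient.mk x, by rw [hqmk, hx]⟩
    have hker : ∀ x, q x = 0 ↔ ∃ m, i1 m = x := by
      intro x
      obtain ⟨x, rfl⟩ := Submodule.Quotient.mk_surjective C' x
      rw [hqmk, hfk]
      constructor
      · intro hx
        obtain ⟨u, ⟨m, rfl⟩, c, hc, huc⟩ := Submodule.mem_sup.1 hx
        refine ⟨m, ?_⟩
        change Submodule.Quotient.mk (iQ m) = _
        rw [Submodule.Quotient.eq]
        change i m - (x : E) ∈ C
        rw [← huc]
        simpa using hc
      · rintro ⟨m, hm⟩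
        change Submodule.Quotient.mk (iQ m) = _ at hm
        rw [Submodule.Quotient.eq] at hm
        change i m - (x : E) ∈ C at hm
        have : (x : E) = i m - (i m - x) := by abel
        rw [this]
        exact Submodule.sub_mem _ (Submodule.mem_sup_left ⟨m, rfl⟩) (Submodule.mem_sup_right hm)
    have hfQ : Finite (Q ⧸ C') := M13_finq C'
    obtain ⟨s, hs'⟩ := h1 a ha (Q ⧸ C') i1 q hi1 hqs hker
    let R : Submodule RG E := (((LinearMap.range s).comap C'.mkQ)).map Q.subtype
    have hR1 : A ⊓ R = ⊥ := by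
      rw [eq_bot_iff]
      rintro _ ⟨⟨m, rfl⟩, ⟨y, hy, hym⟩⟩
      obtain ⟨m', hm'⟩ := hy
      change s m' = Submodule.Quotient.mk y at hm'
      have e1 : f y = 0 := by
        rw [hfk, show (y : E) = i m from hym]
        exact Submodule.mem_sup_left ⟨m, rfl⟩
      have e2 : m' = 0 := by rw [← hs' m', hm', hqmk, e1]
      rw [e2, map_zero] at hm'
      have e3 : y ∈ C' := (Submodule.Quotient.mk_eq_zero C').1 hm'.symm
      have e4 : i m ∈ A ⊓ C := ⟨⟨m, rfl⟩, by rw [← hym]; exact e3⟩
      rwa [hC1] at e4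
    have hR2 : C ≤ R := by
      intro c hc
      refine ⟨⟨c, hCQ hc⟩, ?_, rfl⟩
      refine ⟨0, ?_⟩
      rw [map_zero]
      symm
      exact (Submodule.Quotient.mk_eq_zero C').2 hc
    have hR3 := hC2 R hR1 hR2
    have hnt : Nontrivial (Md a) := IsSimpleModule.nontrivial RG (Md a)
    obtain ⟨m, hm⟩ := exists_ne (0 : Md a)
    obtain ⟨y, hy⟩ := Submodule.Quotient.mk_surjective C' (s m)
    have hyR : (y : E) ∈ R := ⟨y, ⟨m, hy.symm⟩, rfl⟩
    have hyC : y ∈ C' := hR3 hyR
    have : s m = 0 := by rw [← hy]; exact (Submodule.Quotient.mk_eq_zero C').2 hyC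
    exact hm (by rw [← hs' m, this, map_zero])
  have hcompl : IsCompl A C := IsCompl.of_eq hC1 htop
  let e : Md a ≃ₗ[RG] A := LinearEquiv.ofInjective i hi
  refine ⟨e.symm.toLinearMap.comp (Submodule.projectionOnto A C hcompl), ?_⟩
  intro m
  have h3 : Submodule.projectionOnto A C hcompl (i m) = e m :=
    Submodule.projectionOnto_apply_left hcompl (e m)
  change e.symm (Submodule.projectionOnto A C hcompl (i m)) = m
  rw [h3, LinearEquiv.symm_apply_apply]

/-- sections of a module which embeds into a power of `Md a` -/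
theorem M13_all (h2 : S_SIM) {a : Ty} {X : Type} [AddCommGroup X] [Module RG X] [Finite X]
    (h : Hg (Md a) X) : AllC a X := by
  classical
  intro N P hNP
  have hs := h2 a
  have hfinite : Finite (X →ₗ[RG] Md a) := Finite.of_injective (fun f => (f : X → Md a))
    DFunLike.coe_injective
  let ev : X →ₗ[RG] ((X →ₗ[RG] Md a) → Md a) := LinearMap.pi (fun f => f)
  have hev : Function.Injective ev := by
    rw [← LinearMap.ker_eq_bot, LinearMap.ker_eq_bot']
    intro x hx
    exact h x (fun f => congrFun hx f)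
  have hss : IsSemisimpleModule RG X := IsSemisimpleModule.of_injective ev hev
  obtain ⟨T, hT⟩ := exists_isCompl (N.comap P.subtype : Submodule RG P)
  have hsT : IsSimpleModule RG T := by
    have h3 := (covBy_iff_quot_is_simple hNP.le).1 hNP
    exact IsSimpleModule.congr (Submodule.quotientEquivOfIsCompl _ _ hT).symm
  have hnt : Nontrivial T := IsSimpleModule.nontrivial RG T
  obtain ⟨t, ht⟩ := exists_ne (0 : T)
  have ht' : ((t : P) : X) ≠ 0 := by
    intro h0
    exact ht (Subtype.ext (Subtype.ext h0))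
  obtain ⟨f, hf⟩ : ∃ f : X →ₗ[RG] Md a, f ((t : P) : X) ≠ 0 := by
    by_contra hcon
    push Not at hcon
    exact ht' (h _ hcon)
  let g : T →ₗ[RG] Md a := f.comp (P.subtype.comp T.subtype)
  have hg1 : Function.Injective g := by
    refine LinearMap.injective_of_ne_zero (R := RG) (M := T) (N := Md a) (f := g) ?_
    intro h0
    apply hf
    change g t = 0
    rw [h0]
    rfl
  have hg2 : Function.Surjective g := M13_surj h2 g (x := t) hf
  refine ⟨g.comp (Submodule.projectionOnto T _ hT.symm), ?_, ?_⟩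
  · exact hg2.comp (Submodule.projectionOnto_surjective hT.symm)
  · intro x
    change g (Submodule.projectionOnto T _ hT.symm x) = 0 ↔ _
    rw [map_eq_zero_iff g hg1, Submodule.projectionOnto_apply_eq_zero_iff]
    rfl

theorem bM3E (h1 : S_M3) (h2 : S_SIM) : S_M3E := by
  classical
  intro a ha X _ _ _ N hN hQ x hx
  have hs := h2 a
  have hxN : x ∈ N := by
    rw [← Submodule.Quotient.mk_eq_zero N]
    exact hQ _ (fun f => hx (f.comp N.mkQ))
  by_contra hx0
  obtain ⟨f0, hf0⟩ : ∃ f : N →ₗ[RG] Md a, f ⟨x, hxN⟩ ≠ 0 := by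
    by_contra hcon
    push Not at hcon
    have := hN ⟨x, hxN⟩ hcon
    exact hx0 (congrArg Subtype.val this)
  have hf0s : Function.Surjective f0 := M13_surj h2 f0 hf0
  set K0 : Submodule RG X := (LinearMap.ker f0).map N.subtype with hK0
  have hK0N : K0 ≤ N := by
    rintro _ ⟨y, -, rfl⟩
    exact y.2
  have hmemK : ∀ y : N, (y : X) ∈ K0 ↔ f0 y = 0 := by
    intro y
    constructor
    · rintro ⟨z, hz, hzy⟩
      have : z = y := Subtype.ext hzy
      rw [← this]
      exact hz
    · intro hy
      exact ⟨y, hy, rfl⟩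
  let e : (N ⧸ LinearMap.ker f0) ≃ₗ[RG] Md a := f0.quotKerEquivOfSurjective hf0s
  let i0 : (N ⧸ LinearMap.ker f0) →ₗ[RG] (X ⧸ K0) :=
    Submodule.mapQ (LinearMap.ker f0) K0 N.subtype (fun y hy => (hmemK y).2 hy)
  let i : Md a →ₗ[RG] (X ⧸ K0) := i0.comp e.symm.toLinearMap
  have hi_f0 : ∀ y : N, i (f0 y) = Submodule.Quotient.mk (y : X) := by
    intro y
    have h3 : e (Submodule.Quotient.mk y) = f0 y := rfl
    change i0 (e.symm (f0 y)) = _
    rw [← h3, LinearEquiv.symm_apply_apply]
    rfl
  have hi : Function.Injective i := by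
    rw [← LinearMap.ker_eq_bot, LinearMap.ker_eq_bot']
    intro m hm
    obtain ⟨y, rfl⟩ := hf0s m
    rw [hi_f0, Submodule.Quotient.mk_eq_zero, hmemK] at hm
    exact hm
  have hfX : Finite (X ⧸ N) := M13_finq N
  have hfK : Finite (X ⧸ K0) := M13_finq K0
  have hall := M13_all h2 hQ
  obtain ⟨r, hr⟩ := M13_split h1 h2 ha i hi (by
    intro N1 P1 hNP hle
    -- preimages in `X`, images in `X ⧸ N`
    let φ : (X ⧸ K0) →ₗ[RG] (X ⧸ N) := Submodule.factor hK0N
    have hφ : ∀ y : X, φ (Submodule.Quotient.mk y) = Submodule.Quotient.mk y := fun y => rfl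
    have hφs : Function.Surjective φ := by
      intro z
      obtain ⟨y, rfl⟩ := Submodule.Quotient.mk_surjective N z
      exact ⟨Submodule.Quotient.mk y, hφ y⟩
    have hkerφ : LinearMap.ker φ ≤ N1 := by
      intro z hz
      obtain ⟨y, rfl⟩ := Submodule.Quotient.mk_surjective K0 z
      rw [LinearMap.mem_ker, hφ, Submodule.Quotient.mk_eq_zero] at hz
      have := hi_f0 ⟨y, hz⟩
      change i _ = Submodule.Quotient.mk y at this
      rw [← this]
      exact hle ⟨_, rfl⟩
    have hcm : ∀ Q : Submodule RG (X ⧸ K0), N1 ≤ Q → (Q.map φ).comap φ = Q := by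
      intro Q hQ1
      rw [Submodule.comap_map_eq]
      exact sup_eq_left.2 (hkerφ.trans hQ1)
    have hcov : N1.map φ ⋖ P1.map φ := by
      refine ⟨?_, ?_⟩
      · refine lt_of_le_of_ne (Submodule.map_mono hNP.le) ?_
        intro heq
        have h5 := congrArg (fun Q => Q.comap φ) heq
        rw [hcm N1 le_rfl, hcm P1 hNP.le] at h5
        exact hNP.ne h5
      · intro Q hQ1 hQ2
        have h6 : N1 < Q.comap φ := by
          have := hcm N1 le_rfl
          rw [← this]
          exact Submodule.comap_strictMono_of_surjective hφs hQ1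
        have h7 : Q.comap φ < P1 := by
          have := hcm P1 hNP.le
          rw [← this]
          exact Submodule.comap_strictMono_of_surjective hφs hQ2
        exact hNP.2 h6 h7
    obtain ⟨f, hf, hfk⟩ := hall _ _ hcov
    let ψ : P1 →ₗ[RG] P1.map φ := φ.restrict (fun z hz => Submodule.mem_map_of_mem hz)
    have hψs : Function.Surjective ψ := by
      rintro ⟨_, z, hz, rfl⟩
      exact ⟨⟨z, hz⟩, rfl⟩
    refine ⟨f.comp ψ, hf.comp hψs, ?_⟩
    intro z
    change f (ψ z) = 0 ↔ _
    rw [hfk]
    change φ (z : X ⧸ K0) ∈ N1.map φ ↔ _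
    have := hcm N1 le_rfl
    constructor
    · intro h8
      rw [← this]
      exact h8
    · intro h8
      exact Submodule.mem_map_of_mem h8)
  apply hf0
  have h9 := hx (r.comp K0.mkQ)
  change r (Submodule.Quotient.mk x) = 0 at h9
  have h10 := hi_f0 ⟨x, hxN⟩
  change i _ = Submodule.Quotient.mk x at h10
  rw [← h10, hr] at h9
  exact h9

theorem bM3C (h1 : S_M3E) (_h2 : S_SIM) : S_M3C := by
  classical
  intro a ha X _ _ _ hall
  have key : ∀ Q : Submodule RG X, Hg (Md a) Q := by
    intro Q
    induction Q using WellFoundedLT.induction with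
    | ind Q ih =>
      by_cases hQ : Q = ⊥
      · subst hQ
        intro x _
        exact Subsingleton.elim _ _
      · obtain ⟨N, -, hN⟩ := exists_le_covBy_of_lt (bot_lt_iff_ne_bot.2 hQ)
        have ihN := ih N hN.lt
        obtain ⟨f, hf, hfk⟩ := hall N Q hN
        refine h1 a ha Q (N.comap Q.subtype) ?_ ?_
        · intro x hx
          have hxN : ((x : Q) : X) ∈ N := x.2
          have h3 : (⟨((x : Q) : X), hxN⟩ : N) = 0 := by
            apply ihN
            intro g
            let t : (N.comap Q.subtype : Submodule RG Q) →ₗ[RG] N :=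
              (Q.subtype.comp (N.comap Q.subtype).subtype).codRestrict N (fun z => z.2)
            exact hx (g.comp t)
          have h3' : ((x : Q) : X) = 0 := congrArg Subtype.val h3
          exact Subtype.ext (Subtype.ext h3')
        · intro x hx
          obtain ⟨y, rfl⟩ := Submodule.Quotient.mk_surjective _ x
          have hk : (N.comap Q.subtype : Submodule RG Q) ≤ LinearMap.ker f := by
            intro z hz
            exact (hfk z).2 hz
          have h4 := hx ((N.comap Q.subtype : Submodule RG Q).liftQ f hk)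
          rw [Submodule.liftQ_apply] at h4
          rw [Submodule.Quotient.mk_eq_zero]
          exact (hfk y).1 h4
  intro x hx
  have h5 := key ⊤ ⟨x, trivial⟩ (fun g => by
    have := hx (g.comp (Submodule.topEquiv (R := RG) (M := X)).symm.toLinearMap)
    exact this)
  exact congrArg Subtype.val h5

end Pool.Agent.A8
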