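import Pool.Agent.Helper60.A8.M16c

/-!
# Block M16: `bU23`
-/

set_option autoImplicit false

namespace Pool.Agent.A8

open Matrix

theorem M16_B0v : ∃ v v' w : MV, mlv (mvv v v') w ≠ 0 :=
  ⟨(![1, 0, 0, 0] : V4), (![0, 1, 0, 0] : V4), (![0, 0, 1, 0] : V4), by
    change lv (wdg (![1, 0, 0, 0] : V4) ![0, 1, 0, 0]) ![0, 0, 1, 0] ≠ 0
    decide⟩

theorem M16_B0d : ∃ v v' w : MD, mld (mdd v v') w ≠ 0 :=
  ⟨(![1, 0, 0, 0] : V4), (![0, 1, 0, 0] : V4), (![0, 0, 1, 0] : V4), by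
    change ld (wdgD (![1, 0, 0, 0] : V4) ![0, 1, 0, 0]) ![0, 0, 1, 0] ≠ 0
    decide⟩

theorem M16_mvv_comm (v w : MV) : mvv v w = mvv w v := wdg_comm v w
theorem M16_mdd_comm (v w : MD) : mdd v w = mdd w v := congrArg hs (wdg_comm v w)
theorem M16_mvv_self (v : MV) : mvv v v = 0 := wdg_self v
theorem M16_mdd_self (v : MD) : mdd v v = 0 := (congrArg hs (wdg_self v)).trans hs_zero

theorem M16_core (h3 : S_GG) (h4 : S_M3) (h5 : S_M4) (h7 : S_END) {a b a1 c : Ty} (ha : a ≠ .l)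
    (hb : b = a ∨ b = .l) {m : Md a1 → Md b → Md c} (hm : Std3 a1 b c m)
    {X Z : Type} [AddCommGroup X] [Module RG X] [Finite X] [AddCommGroup Z] [Module RG Z]
    (p : X →+ Md b →+ Z) (hp : Adm p) (q : X →ₗ[RG] Md a) (hq : Function.Surjective q)
    (i : Md a1 →ₗ[RG] X) (hi : Function.Injective i) (hqi : ∀ x, q x = 0 ↔ ∃ n, i n = x)
    (j : Md c →ₗ[RG] Z) (hj : Function.Injective j) (hij : ∀ n y, p (i n) y = j (m n y)) :
    ∃ s : Md a →ₗ[RG] X, ∀ v, q (s v) = v := by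
  cases a with
  | l => exact absurd rfl ha
  | v =>
    rcases hb with rfl | rfl
    · cases hm
      · exact h4 .v ha X i q hi hq hqi
      · exact M16_coreB (a := .v) (c := .d) h5 h7 mlv Std3.lv mvv Std3.vv (fun v w => lv_wdg_self v w)
          (fun v w => by rw [M16_mvv_comm]; exact lv_wdg_self w v) M16_B0v
          (M16_ord7 ha) p hp q hq i hi hqi j hj hij
    · cases hm
      · exact h4 .v ha X i q hi hq hqi
      · exact M16_coreC mdl Std3.dl mvv Std3.vv M16_mvv_self vE0 (by decide) dE0 M16_gh_v M16_gs_v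
          (fun v hv => M16_trans ha vE0 v (by decide) hv)
          (fun v w hv hw hvw n h => M16_fixv v w hv hw hvw n h)
          (fun v hv n h => M16_uniqv v hv n h) M16_Bv p hp q hq i hi hqi j hj hij
          (M16_gg h3 ha mdl mvv Std3.vv p hp q hq i hqi j hij)
  | d =>
    rcases hb with rfl | rfl
    · cases hm
      · exact h4 .d ha X i q hi hq hqi
      · exact M16_coreB (a := .d) (c := .v) h5 h7 mld Std3.ld mdd Std3.dd (fun v w => ld_wdgD_self v w)
          (fun v w => by rw [M16_mdd_comm]; exact ld_wdgD_self w v) M16_B0d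
          (M16_ord7 ha) p hp q hq i hi hqi j hj hij
    · cases hm
      · exact M16_coreC mvl Std3.vl mdd Std3.dd M16_mdd_self dE0 (by decide) vE0 M16_gh_d M16_gs_d
          (fun v hv => M16_trans ha dE0 v (by decide) hv)
          (fun v w hv hw hvw n h => M16_fixd v w hv hw hvw n h)
          (fun v hv n h => M16_uniqd v hv n h) M16_Bd p hp q hq i hi hqi j hj hij
          (M16_gg h3 ha mvl mdd Std3.dd p hp q hq i hqi j hij)
      · exact h4 .d ha X i q hi hq hqi

theorem bU23 (h1 : S_UNIV) (h2 : S_UC) (h3 : S_GG) (h4 : S_M3) (h5 : S_M4) (h6 : S_SIM)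
    (h7 : S_END) (h8 : S_F15) : S_U23 := by
  classical
  intro a b ha hb X Z _ _ _ _ _ _ hfX hfZ hloc hhd p hp hpl
  obtain ⟨N0, hN0, hN0'⟩ := hloc
  obtain ⟨f0, hf0, hf0k⟩ := hhd N0 hN0
  by_cases hbot : N0 = ⊥
  · refine ⟨LinearEquiv.ofBijective f0 ⟨?_, hf0⟩⟩
    rw [← LinearMap.ker_eq_bot, hf0k, hbot]
  exfalso
  have hsa := h6 a
  have hmem0 : ∀ x, f0 x = 0 ↔ x ∈ N0 := fun x => by rw [← hf0k]; rfl
  -- the values on `N0`
  set Z1 : Submodule RG Z := Submodule.span RG {z | ∃ x ∈ N0, ∃ y, p x y = z} with hZ1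
  have hZ1m : ∀ x ∈ N0, ∀ y, p x y ∈ Z1 := fun x hx y => Submodule.subset_span ⟨x, hx, y, rfl⟩
  have hZ1b : Z1 ≠ ⊥ := by
    intro h
    obtain ⟨x, hx, hx0⟩ := Submodule.exists_mem_ne_zero_of_ne_bot hbot
    apply hx0
    apply hpl
    intro y
    have := hZ1m x hx y
    rw [h] at this
    exact this
  obtain ⟨Z', -, hZ'⟩ := exists_le_covBy_of_lt (bot_lt_iff_ne_bot.2 hZ1b)
  let X' : Submodule RG X := mkSub
    { carrier := {x | ∀ y, p x y ∈ Z'}
      zero_mem' := fun y => by rw [map_zero]; exact Z'.zero_mem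
      add_mem' := fun {u v} hu hv y => by
        rw [map_add, AddMonoidHom.add_apply]; exact Z'.add_mem (hu y) (hv y)
      neg_mem' := fun {u} hu y => by
        rw [map_neg, AddMonoidHom.neg_apply]; exact Z'.neg_mem (hu y) } (by
    intro g x hx y
    have h9 := hp.equiv g x (act g⁻¹ y)
    rw [act_act_inv] at h9
    rw [h9]
    exact act_mem g (hx _))
  have hX'm : ∀ x, x ∈ X' ↔ ∀ y, p x y ∈ Z' := fun x => Iff.rfl
  have hnle : ¬ N0 ≤ X' := by
    intro h
    have : Z1 ≤ Z' := by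
      rw [hZ1, Submodule.span_le]
      rintro _ ⟨x, hx, y, rfl⟩
      exact (hX'm x).1 (h hx) y
    exact absurd hZ'.lt (not_lt_of_ge this)
  have hX'N : X' ≤ N0 := by
    apply hN0'
    intro h
    exact hnle (by rw [h]; exact le_top)
  have hfinX : Finite (X ⧸ X') := M13_finq X'
  have hfinZ : Finite (Z ⧸ Z') := M13_finq Z'
  obtain ⟨pb, hpb1, hpb⟩ := M16_quoP p hp X'.mkQ (Submodule.mkQ_surjective X') Z'.mkQ (by
    intro x hx y
    exact (Submodule.Quotient.mk_eq_zero _).2 ((Submodule.Quotient.mk_eq_zero _).1 hx y))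
  have hpbl : PerfL pb := by
    intro x hx
    obtain ⟨x, rfl⟩ := Submodule.mkQ_surjective X' x
    refine (Submodule.Quotient.mk_eq_zero _).2 ?_
    intro y
    have := hx y
    rw [hpb1] at this
    exact (Submodule.Quotient.mk_eq_zero _).1 this
  let qb : (X ⧸ X') →ₗ[RG] Md a := X'.liftQ f0 (by rw [hf0k]; exact hX'N)
  have hqb : ∀ x, qb (X'.mkQ x) = f0 x := fun x => X'.liftQ_apply f0 x
  have hqbs : Function.Surjective qb := by
    intro v
    obtain ⟨x, hx⟩ := hf0 v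
    exact ⟨X'.mkQ x, by rw [hqb, hx]⟩
  -- the simple value module
  let S0 := Z1 ⧸ (Z'.comap Z1.subtype)
  have hS0 : IsSimpleModule RG S0 := (covBy_iff_quot_is_simple hZ'.le).1 hZ'
  have hfS0 : Finite S0 := M13_finq _
  let j0 : S0 →ₗ[RG] (Z ⧸ Z') := Submodule.mapQ (Z'.comap Z1.subtype) Z' Z1.subtype le_rfl
  have hj0 : ∀ z : Z1, j0 (Submodule.Quotient.mk z) = Z'.mkQ (z : Z) := fun z => rfl
  have hj0i : Function.Injective j0 := by
    rw [← LinearMap.ker_eq_bot, LinearMap.ker_eq_bot']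
    intro z hz
    obtain ⟨z, rfl⟩ := Submodule.Quotient.mk_surjective _ z
    rw [hj0] at hz
    exact (Submodule.Quotient.mk_eq_zero (Z'.comap Z1.subtype)).2
      ((Submodule.Quotient.mk_eq_zero Z').1 hz)
  have hfrS0 : Free15 S0 := M16_free_inj (M16_free_quot hfZ Z') j0 hj0i
  -- the kernel
  let Nb : Submodule RG (X ⧸ X') := LinearMap.ker qb
  obtain ⟨pN, hpN1, hpN⟩ := M16_subP pb hpb Nb.subtype j0 hj0i (by
    rintro ⟨x, hx⟩ y
    obtain ⟨x, rfl⟩ := Submodule.mkQ_surjective X' x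
    have hx' : x ∈ N0 := by
      rw [← hmem0, ← hqb]
      exact hx
    refine ⟨Submodule.Quotient.mk ⟨p x y, hZ1m x hx' y⟩, ?_⟩
    rw [hj0]
    exact (hpb1 x y).symm)
  have hpNl : PerfL pN := by
    intro x hx
    apply Subtype.ext
    apply hpbl
    intro y
    have := hpN1 x y
    rw [hx y, map_zero] at this
    exact this.symm
  have hfrX : Free15 (X ⧸ X') := M16_free_quot hfX X'
  have hfrN : Free15 Nb := M16_free_inj hfrX Nb.subtype Subtype.val_injective
  have hntN : Nontrivial Nb := by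
    obtain ⟨x, hx, hx'⟩ := SetLike.not_le_iff_exists.1 hnle
    refine ⟨⟨⟨X'.mkQ x, ?_⟩, 0, ?_⟩⟩
    · change qb (X'.mkQ x) = 0
      rw [hqb]
      exact (hmem0 x).2 hx
    · intro h
      apply hx'
      exact (Submodule.Quotient.mk_eq_zero _).1 (congrArg Subtype.val h)
  -- a simple submodule
  obtain ⟨A, hA⟩ : ∃ A : Submodule RG Nb, IsAtom A := by
    obtain ⟨A, hA, -⟩ := exists_covBy_le_of_lt (bot_lt_top (α := Submodule RG Nb))
    exact ⟨A, bot_covBy_iff.1 hA⟩
  have hAs : IsSimpleModule RG A := isSimpleModule_iff_isAtom.2 hA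
  obtain ⟨pA, hpA1, hpA⟩ := M16_subP (X1 := A) pN hpN A.subtype (LinearMap.id : S0 →ₗ[RG] S0)
    Function.injective_id (fun x y => ⟨_, rfl⟩)
  have hfrA : Free15 A := M16_free_inj (X1 := A) hfrN A.subtype Subtype.val_injective
  have hntA : Nontrivial A := IsSimpleModule.nontrivial RG A
  obtain ⟨x0, hx0⟩ := exists_ne (0 : A)
  have hex : ∃ x y, pA x y ≠ 0 := by
    by_contra hcon
    push Not at hcon
    apply hx0
    apply Subtype.ext
    apply hpNl
    intro y
    have := hpA1 x0 y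
    rw [hcon x0 y] at this
    exact this.symm
  obtain ⟨-, -, c, -, -, -, γ, -⟩ := h1 A (Md b) S0 hAs (h6 b) hS0 hfrA (h8 b) hfrS0 pA hpA hex
  obtain ⟨p2, hp21, hp2⟩ := M16_subP pN hpN (LinearMap.id : Nb →ₗ[RG] Nb) γ.symm.toLinearMap
    γ.symm.injective (fun x y => ⟨γ (pN x y), γ.symm_apply_apply _⟩)
  have hp2l : PerfL p2 := by
    intro x hx
    apply hpNl
    intro y
    have := hp21 x y
    rw [hx y, map_zero] at this
    exact this.symm
  obtain ⟨a1, m, α, hm, hα⟩ := h2 b c Nb p2 hp2 hp2l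
  have hcore := M16_core h3 h4 h5 h7 ha hb hm pb hpb qb hqbs (Nb.subtype.comp α.symm.toLinearMap)
    (Subtype.val_injective.comp α.symm.injective) (by
      intro x
      constructor
      · intro hx
        exact ⟨α ⟨x, hx⟩, congrArg Subtype.val (α.symm_apply_apply ⟨x, hx⟩)⟩
      · rintro ⟨n, rfl⟩
        exact (α.symm n).2) (j0.comp γ.symm.toLinearMap) (hj0i.comp γ.symm.injective) (by
      intro n y
      have e1 := hpN1 (α.symm n) y
      have e2 := hp21 (α.symm n) y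
      rw [hα, α.apply_symm_apply] at e2
      refine e1.symm.trans ?_
      exact congrArg j0 e2.symm)
  obtain ⟨s, hs⟩ := hcore
  have htop : (LinearMap.range s).comap X'.mkQ = ⊤ := by
    by_contra hne
    have hle := hN0' _ hne
    have hnt : Nontrivial (Md a) := IsSimpleModule.nontrivial RG (Md a)
    obtain ⟨v, hv⟩ := exists_ne (0 : Md a)
    obtain ⟨x, hx⟩ := Submodule.mkQ_surjective X' (s v)
    have hxN : x ∈ N0 := hle (by
      change X'.mkQ x ∈ LinearMap.range s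
      rw [hx]
      exact ⟨v, rfl⟩)
    apply hv
    rw [← hs v, ← hx, hqb]
    exact (hmem0 x).2 hxN
  obtain ⟨n, hn⟩ := exists_ne (0 : Nb)
  apply hn
  obtain ⟨x, hx⟩ := Submodule.mkQ_surjective X' (n : X ⧸ X')
  have hxr : X'.mkQ x ∈ LinearMap.range s := by
    have : x ∈ (LinearMap.range s).comap X'.mkQ := by rw [htop]; trivial
    exact this
  obtain ⟨v, hv⟩ := hxr
  have hv0 : v = 0 := by
    rw [← hs v, hv, hx]
    exact n.2
  apply Subtype.ext
  rw [← hx, ← hv, hv0, map_zero]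
  rfl

end Pool.Agent.A8
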