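import Pool.Agent.Helper60.A8.M13

/-!
# Block M16, part a: pairings on sub- and quotient modules, finite facts
-/

set_option autoImplicit false

namespace Pool.Agent.A8

open Matrix

/-! ### general pairings -/

section gen
variable {X Y Z X1 Z1 : Type*} [AddCommGroup X] [Module RG X] [AddCommGroup Y] [Module RG Y]
  [AddCommGroup Z] [Module RG Z] [AddCommGroup X1] [Module RG X1] [AddCommGroup Z1] [Module RG Z1]

/-- bundle a biadditive function -/
def M16_mkP (f : X → Y → Z) (h1 : ∀ x x' y, f (x + x') y = f x y + f x' y)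
    (h2 : ∀ x y y', f x (y + y') = f x y + f x y') : X →+ Y →+ Z :=
  AddMonoidHom.mk' (fun x => AddMonoidHom.mk' (f x) (h2 x)) (fun x x' => by
    ext y
    exact h1 x x' y)

theorem M16_nsmul_odd (n : ℕ) (hn : Odd n) (x : X) : n • x = x := by
  obtain ⟨k, rfl⟩ := hn
  rw [add_smul, one_smul, mul_comm, mul_smul, two_smul, add_self, smul_zero, zero_add]

/-- averaging over a cyclic group of odd order -/
theorem M16_avg (g : Gam) (n : ℕ) (hn : Odd n) (hg : g ^ n = 1) (q : X →ₗ[RG] X1) (x : X)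
    (hx : act g (q x) = q x) : ∃ x', act g x' = x' ∧ q x' = q x := by
  refine ⟨∑ i ∈ Finset.range n, act (g ^ i) x, ?_, ?_⟩
  · rw [act_sum]
    have h1 : ∀ i, act g (act (g ^ i) x) = act (g ^ (i + 1)) x := by
      intro i
      rw [← act_mul, pow_succ']
    simp only [h1]
    have h2 := Finset.sum_range_succ' (fun i => act (g ^ i) x) n
    have h3 := Finset.sum_range_succ (fun i => act (g ^ i) x) n
    rw [h2] at h3
    simp only [hg, pow_zero, act_one] at h3
    exact add_right_cancel h3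
  · rw [map_sum]
    have h1 : ∀ i, act (g ^ i) (q x) = q x := by
      intro i
      induction i with
      | zero => simp
      | succ i ih => rw [pow_succ', act_mul, ih, hx]
    simp only [map_act, h1]
    rw [Finset.sum_const, Finset.card_range, M16_nsmul_odd n hn]

theorem M16_free_quot (hX : Free15 X) (N : Submodule RG X) : Free15 (X ⧸ N) := by
  intro g hg x hx
  obtain ⟨x, rfl⟩ := Submodule.Quotient.mk_surjective N x
  have h15 : g ^ 15 = 1 := by rw [← hg]; exact pow_orderOf_eq_one g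
  obtain ⟨x', h1, h2⟩ := M16_avg g 15 (by decide) h15 N.mkQ x hx
  rw [hX g hg x' h1, map_zero] at h2
  exact h2.symm

theorem M16_free_inj (hX : Free15 X) (i : X1 →ₗ[RG] X) (hi : Function.Injective i) :
    Free15 X1 := by
  intro g hg x hx
  apply hi
  rw [map_zero]
  exact hX g hg _ (by rw [← map_act, hx])

theorem M16_nrm4 (q : X →ₗ[RG] X1) (g : Gam) (x : X) : q (nrm4 g x) = nrm4 g (q x) := by
  simp [nrm4]

/-- pushing a pairing forward -/
theorem M16_quoP (p : X →+ Y →+ Z) (hp : Adm p) (q : X →ₗ[RG] X1) (hq : Function.Surjective q)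
    (r : Z →ₗ[RG] Z1) (h : ∀ x, q x = 0 → ∀ y, r (p x y) = 0) :
    ∃ pb : X1 →+ Y →+ Z1, (∀ x y, pb (q x) y = r (p x y)) ∧ Adm pb := by
  classical
  let f : X1 → Y → Z1 := fun x y => r (p (Function.surjInv hq x) y)
  have hf : ∀ x y, f (q x) y = r (p x y) := by
    intro x y
    have h1 : q (Function.surjInv hq (q x) - x) = 0 := by
      rw [map_sub, Function.surjInv_eq hq, sub_self]
    have h2 := h _ h1 y
    rw [map_sub, AddMonoidHom.sub_apply, map_sub, sub_eq_zero] at h2
    exact h2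
  have h1 : ∀ x x' y, f (x + x') y = f x y + f x' y := by
    intro x x' y
    obtain ⟨x, rfl⟩ := hq x
    obtain ⟨x', rfl⟩ := hq x'
    rw [← map_add, hf, hf, hf, map_add, AddMonoidHom.add_apply, map_add]
  have h2 : ∀ x y y', f x (y + y') = f x y + f x y' := by
    intro x y y'
    obtain ⟨x, rfl⟩ := hq x
    rw [hf, hf, hf, map_add, map_add]
  refine ⟨M16_mkP f h1 h2, hf, ?_, ?_, ?_⟩
  · intro g x y
    obtain ⟨x, rfl⟩ := hq x
    change f _ _ = act g (f _ _)
    rw [← map_act, hf, hf, hp.equiv, map_act]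
  · intro g hg x y hx hy
    obtain ⟨x, rfl⟩ := hq x
    change f _ _ = 0
    obtain ⟨n, hn, hgn⟩ : ∃ n, Odd n ∧ g ^ n = 1 := by
      rcases hg with hg | hg
      · exact ⟨5, by decide, by rw [← hg]; exact pow_orderOf_eq_one g⟩
      · exact ⟨7, by decide, by rw [← hg]; exact pow_orderOf_eq_one g⟩
    obtain ⟨x', h3, h4⟩ := M16_avg g n hn hgn q x hx
    rw [← h4, hf, hp.fix g hg x' y h3 hy, map_zero]
  · intro g hg x y
    obtain ⟨x, rfl⟩ := hq x
    change f _ _ = 0
    rw [← M16_nrm4, hf, hp.four g hg, map_zero]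

/-- restricting a pairing -/
theorem M16_subP (p : X →+ Y →+ Z) (hp : Adm p) (i : X1 →ₗ[RG] X) (j : Z1 →ₗ[RG] Z)
    (hj : Function.Injective j) (h : ∀ x y, ∃ z, j z = p (i x) y) :
    ∃ p0 : X1 →+ Y →+ Z1, (∀ x y, j (p0 x y) = p (i x) y) ∧ Adm p0 := by
  classical
  choose f hf using h
  refine ⟨M16_mkP f ?_ ?_, hf, ?_, ?_, ?_⟩
  · intro x x' y
    apply hj
    rw [map_add, hf, hf, hf, map_add, map_add, AddMonoidHom.add_apply]
  · intro x y y'
    apply hj
    rw [map_add, hf, hf, hf, map_add]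
  · intro g x y
    apply hj
    change j (f _ _) = j (act g (f _ _))
    rw [map_act, hf, hf, map_act, hp.equiv]
  · intro g hg x y hx hy
    apply hj
    change j (f _ _) = j 0
    rw [hf, map_zero]
    exact hp.fix g hg _ _ (by rw [← map_act, hx]) hy
  · intro g hg x y
    apply hj
    change j (f _ _) = j 0
    rw [hf, map_zero, M16_nrm4]
    exact hp.four g hg _ _

end gen

/-! ### transvections -/

/-- the transvection with centre `c` and axis `φ` -/
def M16_tv (c φ : V4) (h : ev φ c = 0) : Gam :=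
  mkG (1 + vecMulVec c φ) (1 + vecMulVec c φ)
    (by
      rw [Matrix.mul_add, Matrix.mul_one, Matrix.add_mul, Matrix.one_mul,
        Matrix.vecMulVec_mul_vecMulVec]
      have h' : φ ⬝ᵥ c = 0 := h
      rw [h', zero_smul, vecMulVec_zero, add_zero]
      ext i j
      simp only [Matrix.add_apply]
      rw [add_assoc, zadd, add_zero])
    (by
      rw [Matrix.mul_add, Matrix.mul_one, Matrix.add_mul, Matrix.one_mul,
        Matrix.vecMulVec_mul_vecMulVec]
      have h' : φ ⬝ᵥ c = 0 := h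
      rw [h', zero_smul, vecMulVec_zero, add_zero]
      ext i j
      simp only [Matrix.add_apply]
      rw [add_assoc, zadd, add_zero])

theorem M16_tv_v (c φ : V4) (h : ev φ c = 0) (x : MV) :
    act (M16_tv c φ h) x = (fun i => x i + ev φ x * c i : V4) := by
  rw [act_MV]
  change (1 + vecMulVec c φ) *ᵥ (show V4 from x) = _
  rw [Matrix.add_mulVec, Matrix.one_mulVec, Matrix.vecMulVec_mulVec]
  funext i
  change x i + c i * (φ ⬝ᵥ (show V4 from x)) = _
  rw [mul_comm]
  rfl

theorem M16_tv_d (c φ : V4) (h : ev φ c = 0) (x : MD) :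
    act (M16_tv c φ h) x = (fun i => x i + ev x c * φ i : V4) := by
  rw [act_MD]
  change (1 + vecMulVec c φ)ᵀ *ᵥ (show V4 from x) = _
  rw [Matrix.transpose_add, Matrix.transpose_one, Matrix.transpose_vecMulVec, Matrix.add_mulVec,
    Matrix.one_mulVec, Matrix.vecMulVec_mulVec]
  funext i
  change x i + φ i * (c ⬝ᵥ (show V4 from x)) = _
  rw [mul_comm, dotProduct_comm]
  rfl

set_option maxRecDepth 100000 in
theorem M16_fact1 : ∀ v w n : V4, v ≠ 0 → w ≠ 0 → v ≠ w → ∃ φ : V4, φ ≠ 0 ∧ φ ≠ n ∧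
    ev φ v = 0 ∧ ev φ w = 0 := by
  decide +kernel

set_option maxRecDepth 100000 in
theorem M16_fact2 : ∀ φ n : V4, φ ≠ 0 → n ≠ 0 → φ ≠ n → ∃ c : V4, ev φ c = 0 ∧ ev n c = 1 := by
  decide +kernel

end Pool.Agent.A8
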