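import Pool.Agent.Helper60.A8.M16a

/-!
# Block M16, part b: finite facts
-/

set_option autoImplicit false

namespace Pool.Agent.A8

open Matrix

theorem M16_ev_comm (a b : V4) : ev a b = ev b a := dotProduct_comm a b

theorem M16_z01 (a : ZMod 2) : a = 0 ∨ a = 1 := by revert a; decide

theorem M16_fixv (v w : MV) (hv : v ≠ 0) (hw : w ≠ 0) (hvw : v ≠ w) (n : MD)
    (h : ∀ g : Gam, act g v = v → act g w = w → act g n = n) : n = 0 := by
  by_contra hn
  obtain ⟨φ, h1, h2, h3, h4⟩ := M16_fact1 v w n hv hw hvw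
  obtain ⟨c, h5, h6⟩ := M16_fact2 φ n h1 hn h2
  have h7 := h (M16_tv c φ h5)
    (by rw [M16_tv_v, h3]; funext i; rw [zero_mul, add_zero])
    (by rw [M16_tv_v, h4]; funext i; rw [zero_mul, add_zero])
  rw [M16_tv_d, h6] at h7
  apply h1
  funext i
  have h8 := congrFun h7 i
  simp only [one_mul] at h8
  exact add_eq_left.1 h8

theorem M16_fixd (v w : MD) (hv : v ≠ 0) (hw : w ≠ 0) (hvw : v ≠ w) (n : MV)
    (h : ∀ g : Gam, act g v = v → act g w = w → act g n = n) : n = 0 := by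
  by_contra hn
  obtain ⟨c, h1, h2, h3, h4⟩ := M16_fact1 v w n hv hw hvw
  obtain ⟨φ, h5, h6⟩ := M16_fact2 c n h1 hn h2
  replace h3 := (M16_ev_comm v c).trans h3
  replace h4 := (M16_ev_comm w c).trans h4
  replace h5 := (M16_ev_comm φ c).trans h5
  replace h6 := (M16_ev_comm φ n).trans h6
  have h7 := h (M16_tv c φ h5)
    (by rw [M16_tv_d, h3]; funext i; rw [zero_mul, add_zero])
    (by rw [M16_tv_d, h4]; funext i; rw [zero_mul, add_zero])
  rw [M16_tv_v, h6] at h7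
  apply h1
  funext i
  have h8 := congrFun h7 i
  simp only [one_mul] at h8
  exact add_eq_left.1 h8

set_option maxRecDepth 100000 in
theorem M16_fact3 : ∀ u v : V4, u ≠ 0 → v ≠ 0 → ∃ φ : V4, ev φ u = 1 ∧ ev φ v = 1 := by
  decide +kernel

theorem M16_ev_add (φ u v : V4) : ev φ (u + v) = ev φ u + ev φ v := dotProduct_add _ _ _

theorem M16_ev_add' (φ u v : V4) : ev (u + v) φ = ev u φ + ev v φ := add_dotProduct _ _ _

theorem M16_transv (u v : MV) (hu : u ≠ 0) (hv : v ≠ 0) : ∃ g : Gam, act g u = v := by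
  obtain ⟨φ, h1, h2⟩ := M16_fact3 u v hu hv
  refine ⟨M16_tv ((show V4 from u) + (show V4 from v)) φ ?_, ?_⟩
  · exact (M16_ev_add φ u v).trans (by rw [h1, h2]; decide)
  · rw [M16_tv_v, h1]
    funext i
    change u i + 1 * (u i + v i) = v i
    rw [one_mul, ← add_assoc, zadd, zero_add]

theorem M16_transd (u v : MD) (hu : u ≠ 0) (hv : v ≠ 0) : ∃ g : Gam, act g u = v := by
  obtain ⟨c, h1, h2⟩ := M16_fact3 u v hu hv
  replace h1 := (M16_ev_comm u c).trans h1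
  replace h2 := (M16_ev_comm v c).trans h2
  refine ⟨M16_tv c ((show V4 from u) + (show V4 from v)) ?_, ?_⟩
  · exact (M16_ev_add' c u v).trans (by rw [h1, h2]; decide)
  · rw [M16_tv_d, h1]
    funext i
    change u i + 1 * (u i + v i) = v i
    rw [one_mul, ← add_assoc, zadd, zero_add]

theorem M16_trans {a : Ty} (ha : a ≠ .l) (u v : Md a) (hu : u ≠ 0) (hv : v ≠ 0) :
    ∃ g : Gam, act g u = v := by
  cases a with
  | v => exact M16_transv u v hu hv
  | d => exact M16_transd u v hu hv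
  | l => exact absurd rfl ha

theorem M16_k1 : gh.1 *ᵥ (![1, 0, 0, 0] : V4) = ![1, 0, 0, 0] := by decide
theorem M16_k2 : gs.1 *ᵥ (![1, 0, 0, 0] : V4) = ![1, 0, 0, 0] := by decide
theorem M16_k3 : (gh⁻¹).1ᵀ *ᵥ (![1, 0, 0, 0] : V4) = ![1, 0, 0, 0] := by decide
theorem M16_k4 : (gs⁻¹).1ᵀ *ᵥ (![1, 0, 0, 0] : V4) = ![1, 0, 0, 0] := by decide
theorem M16_k5 : gs.1 *ᵥ (![0, 1, 0, 0] : V4) = ![0, 1, 0, 0] := by decide
theorem M16_k6 : (gs⁻¹).1ᵀ *ᵥ (![0, 1, 0, 0] : V4) = ![0, 1, 0, 0] := by decide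
theorem M16_k7 : (![0, 0, 1, 0] : V4) = gh.1 *ᵥ (![0, 1, 0, 0] : V4) := by decide
theorem M16_k8 : (![0, 0, 0, 1] : V4) = gh.1 *ᵥ (gh.1 *ᵥ (![0, 1, 0, 0] : V4)) := by decide
theorem M16_k9 : gh.1 *ᵥ (gh.1 *ᵥ (gh.1 *ᵥ (![0, 1, 0, 0] : V4))) =
    ![0, 1, 0, 0] + gh.1 *ᵥ (![0, 1, 0, 0] : V4) := by decide
theorem M16_k10 : (![0, 0, 1, 0] : V4) =
    (gh⁻¹).1ᵀ *ᵥ (![0, 1, 0, 0] : V4) + ![0, 1, 0, 0] := by decide
theorem M16_k11 : (![0, 0, 0, 1] : V4) = (gh⁻¹).1ᵀ *ᵥ ((gh⁻¹).1ᵀ *ᵥ (![0, 1, 0, 0] : V4)) +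
    (gh⁻¹).1ᵀ *ᵥ (![0, 1, 0, 0] : V4) := by decide
theorem M16_k12 : (gh⁻¹).1ᵀ *ᵥ ((gh⁻¹).1ᵀ *ᵥ ((gh⁻¹).1ᵀ *ᵥ (![0, 1, 0, 0] : V4))) =
    ![0, 1, 0, 0] + (gh⁻¹).1ᵀ *ᵥ ((gh⁻¹).1ᵀ *ᵥ (![0, 1, 0, 0] : V4)) := by decide

theorem M16_gh_v : act gh vE0 = vE0 := (act_MV gh vE0).trans M16_k1
theorem M16_gs_v : act gs vE0 = vE0 := (act_MV gs vE0).trans M16_k2
theorem M16_gh_d : act gh dE0 = dE0 := (act_MD gh dE0).trans M16_k3
theorem M16_gs_d : act gs dE0 = dE0 := (act_MD gs dE0).trans M16_k4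

theorem M16_gh_ord : orderOf gh = 7 := by
  have : Fact (Nat.Prime 7) := ⟨by norm_num⟩
  refine orderOf_eq_prime gh_7 ?_
  intro h
  have h1 := congrArg (fun g : Gam => g.1 2 1) h
  revert h1
  decide

theorem M16_ord7 {a : Ty} (ha : a ≠ .l) (v : Md a) : ∃ g : Gam, orderOf g = 7 ∧ act g v = v := by
  by_cases hv : v = 0
  · exact ⟨gh, M16_gh_ord, by rw [hv, act_zero]⟩
  · obtain ⟨e, he, hge⟩ : ∃ e : Md a, e ≠ 0 ∧ act gh e = e := by
      cases a with
      | v => exact ⟨vE0, by decide, M16_gh_v⟩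
      | d => exact ⟨dE0, by decide, M16_gh_d⟩
      | l => exact absurd rfl ha
    obtain ⟨g, hg⟩ := M16_trans ha e v he hv
    refine ⟨g * gh * g⁻¹, ?_, ?_⟩
    · rw [← M16_gh_ord]
      exact orderOf_injective (MulAut.conj g).toMonoidHom (MulAut.conj g).injective gh
    · rw [act_mul, act_mul]
      have h1 : act g⁻¹ v = e := by rw [← hg, act_inv_act]
      rw [h1, hge, hg]

set_option maxRecDepth 100000 in
theorem M16_fact4 : ∀ v n : V4, v ≠ 0 → (∀ w : V4, ld (wdg v w) n = 0) → n = 0 := by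
  decide +kernel

theorem M16_uniqv (v : MV) (hv : v ≠ 0) (n : MD) (h : ∀ w, mdl n (mvv v w) = 0) : n = 0 :=
  M16_fact4 v n hv h

theorem M16_uniqd (v : MD) (hv : v ≠ 0) (n : MV) (h : ∀ w, mvl n (mdd v w) = 0) : n = 0 := by
  apply M16_fact4 v n hv
  intro w
  have h1 := h w
  have h2 : toMat (hs (hs (wdg (show V4 from v) w))) *ᵥ (show V4 from n) = 0 := h1
  rw [hs_hs] at h2
  exact h2

/-- an additive map killing the generators is zero -/
theorem M16_det {M : Type*} [AddCommGroup M] (B : V4 →+ M)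
    (h0 : B ![1, 0, 0, 0] = 0) (h1 : B ![0, 1, 0, 0] = 0) (h2 : B ![0, 0, 1, 0] = 0)
    (h3 : B ![0, 0, 0, 1] = 0) (w : V4) : B w = 0 := by
  have h : ∀ i : Fin 4, B (Pi.single i 1) = 0 := by
    intro i
    fin_cases i
    · rw [← h0]; congr 1; decide
    · rw [← h1]; congr 1; decide
    · rw [← h2]; congr 1; decide
    · rw [← h3]; congr 1; decide
  rw [← Finset.univ_sum_single w, map_sum]
  apply Finset.sum_eq_zero
  intro i _
  rcases M16_z01 (w i) with h1 | h1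
  · rw [h1, Pi.single_zero, map_zero]
  · rw [h1]; exact h i

theorem M16_fact5 : ∀ u : V4, gs.1 *ᵥ u = u →
    gh.1 *ᵥ (gh.1 *ᵥ (gh.1 *ᵥ u)) = u + gh.1 *ᵥ u → u = 0 ∨ u = ![0, 1, 0, 0] := by
  decide +kernel

theorem M16_fact5d : ∀ u : V4, (gs⁻¹).1ᵀ *ᵥ u = u →
    (gh⁻¹).1ᵀ *ᵥ ((gh⁻¹).1ᵀ *ᵥ ((gh⁻¹).1ᵀ *ᵥ u)) = u + (gh⁻¹).1ᵀ *ᵥ ((gh⁻¹).1ᵀ *ᵥ u) →
    u = 0 ∨ u = ![0, 1, 0, 0] := by
  decide +kernel

theorem M16_Bv0 (B : MV →+ MV) (h0 : B vE0 = 0) (h1 : B vE1 = 0)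
    (hh : ∀ w, B (act gh w) = act gh (B w)) (w : MV) : B w = 0 := by
  have e2 : (![0, 0, 1, 0] : V4) = act gh vE1 := M16_k7.trans (act_MV gh vE1).symm
  have e3 : (![0, 0, 0, 1] : V4) = act gh (act gh vE1) := by
    rw [act_MV, act_MV]; exact M16_k8
  refine M16_det (M := MV) B h0 h1 ?_ ?_ w
  · have : B (act gh vE1) = 0 := by rw [hh, h1, act_zero]
    rw [← e2] at this
    exact this
  · have : B (act gh (act gh vE1)) = 0 := by rw [hh, hh, h1, act_zero, act_zero]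
    rw [← e3] at this
    exact this

theorem M16_Bv (B : MV →+ MV) (h0 : B vE0 = 0) (hh : ∀ w, B (act gh w) = act gh (B w))
    (hs' : ∀ w, B (act gs w) = act gs (B w)) :
    (∀ w, B w = 0) ∨ ∀ w, B w = mdl dE0 (mvv vE0 w) := by
  have e1 : act gs vE1 = vE1 := (act_MV gs vE1).trans M16_k5
  have e2 : act gh (act gh (act gh vE1)) = vE1 + act gh vE1 := by
    rw [act_MV, act_MV, act_MV]; exact M16_k9
  have h2 : act gs (B vE1) = B vE1 := by rw [← hs', e1]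
  have h3 : act gh (act gh (act gh (B vE1))) = B vE1 + act gh (B vE1) := by
    rw [← hh, ← hh, ← hh, e2, map_add, hh]
  rw [act_MV] at h2
  rw [act_MV, act_MV, act_MV] at h3
  rcases M16_fact5 (B vE1) h2 h3 with h4 | h4
  · left
    exact M16_Bv0 B h0 h4 hh
  · right
    let B' : MV →+ MV := AddMonoidHom.mk' (fun w => mdl dE0 (mvv vE0 w)) (by
      intro w w'
      have h5 := Std3.vv.add_right (vE0 : Md .v) w w'
      have h6 := Std3.dl.add_right (dE0 : Md .d) (mvv vE0 w) (mvv vE0 w')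
      exact (congrArg (mdl dE0) h5).trans h6)
    have hB' : ∀ w, B' w = mdl dE0 (mvv vE0 w) := fun w => rfl
    have hB0 : B' vE0 = 0 := by
      change ld (wdg (![1, 0, 0, 0] : V4) ![1, 0, 0, 0]) ![1, 0, 0, 0] = 0
      decide
    have hB1 : B' vE1 = vE1 := by
      change ld (wdg (![1, 0, 0, 0] : V4) ![0, 1, 0, 0]) ![1, 0, 0, 0] = ![0, 1, 0, 0]
      decide
    intro w
    have h4' : B vE1 = vE1 := h4
    have h5 := M16_Bv0 (B + B') (by
      rw [AddMonoidHom.add_apply, h0, zero_add, hB0]) (by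
      rw [AddMonoidHom.add_apply, h4', hB1, add_self]) (by
      intro w
      rw [AddMonoidHom.add_apply, AddMonoidHom.add_apply, hh, act_add, hB', hB', ← mdl_act,
        M16_gh_d, ← mvv_act, M16_gh_v]) w
    rw [AddMonoidHom.add_apply, hB'] at h5
    rw [eq_neg_of_add_eq_zero_left h5, neg_eq]

theorem M16_Bd0 (B : MD →+ MD) (h0 : B dE0 = 0) (h1 : B dE1 = 0)
    (hh : ∀ w, B (act gh w) = act gh (B w)) (w : MD) : B w = 0 := by
  have e2 : (![0, 0, 1, 0] : V4) = (act gh dE1 + dE1 : MD) := by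
    rw [act_MD]; exact M16_k10
  have e3 : (![0, 0, 0, 1] : V4) = (act gh (act gh dE1) + act gh dE1 : MD) := by
    rw [act_MD, act_MD]; exact M16_k11
  refine M16_det (M := MD) B h0 h1 ?_ ?_ w
  · have : B (act gh dE1 + dE1) = 0 := by rw [map_add, hh, h1, act_zero, add_zero]
    rw [← e2] at this
    exact this
  · have : B (act gh (act gh dE1) + act gh dE1) = 0 := by
      rw [map_add, hh, hh, h1, act_zero, act_zero, add_zero]
    rw [← e3] at this
    exact this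

theorem M16_Bd (B : MD →+ MD) (h0 : B dE0 = 0) (hh : ∀ w, B (act gh w) = act gh (B w))
    (hs' : ∀ w, B (act gs w) = act gs (B w)) :
    (∀ w, B w = 0) ∨ ∀ w, B w = mvl vE0 (mdd dE0 w) := by
  have e1 : act gs dE1 = dE1 := (act_MD gs dE1).trans M16_k6
  have e2 : act gh (act gh (act gh dE1)) = dE1 + act gh (act gh dE1) := by
    rw [act_MD, act_MD, act_MD]; exact M16_k12
  have h2 : act gs (B dE1) = B dE1 := by rw [← hs', e1]
  have h3 : act gh (act gh (act gh (B dE1))) = B dE1 + act gh (act gh (B dE1)) := by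
    rw [← hh, ← hh, ← hh, e2, map_add, hh, hh]
  rw [act_MD] at h2
  rw [act_MD, act_MD, act_MD] at h3
  rcases M16_fact5d (B dE1) h2 h3 with h4 | h4
  · left
    exact M16_Bd0 B h0 h4 hh
  · right
    let B' : MD →+ MD := AddMonoidHom.mk' (fun w => mvl vE0 (mdd dE0 w)) (by
      intro w w'
      have h5 := Std3.dd.add_right (dE0 : Md .d) w w'
      have h6 := Std3.vl.add_right (vE0 : Md .v) (mdd dE0 w) (mdd dE0 w')
      exact (congrArg (mvl vE0) h5).trans h6)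
    have hB' : ∀ w, B' w = mvl vE0 (mdd dE0 w) := fun w => rfl
    have hB0 : B' dE0 = 0 := by
      change lv (wdgD (![1, 0, 0, 0] : V4) ![1, 0, 0, 0]) ![1, 0, 0, 0] = 0
      decide
    have hB1 : B' dE1 = dE1 := by
      change lv (wdgD (![1, 0, 0, 0] : V4) ![0, 1, 0, 0]) ![1, 0, 0, 0] = ![0, 1, 0, 0]
      decide
    intro w
    have h4' : B dE1 = dE1 := h4
    have h5 := M16_Bd0 (B + B') (by
      rw [AddMonoidHom.add_apply, h0, zero_add, hB0]) (by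
      rw [AddMonoidHom.add_apply, h4', hB1, add_self]) (by
      intro w
      rw [AddMonoidHom.add_apply, AddMonoidHom.add_apply, hh, act_add, hB', hB', ← mvl_act,
        M16_gh_v, ← mdd_act, M16_gh_d]) w
    rw [AddMonoidHom.add_apply, hB'] at h5
    rw [eq_neg_of_add_eq_zero_left h5, neg_eq]

end Pool.Agent.A8
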