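import Pool.Agent.Helper60.A8.M16b

/-!
# Block M16, part c: the three extension types
-/

set_option autoImplicit false

namespace Pool.Agent.A8

open Matrix

theorem M16_coreB (h5 : S_M4) (h7 : S_END) {a c : Ty} (m : ML → Md a → Md c)
    (hm : Std3 .l a c m) (m2 : Md a → Md a → ML) (hm2 : Std3 a a .l m2)
    (f1 : ∀ v w, m (m2 v w) v = 0) (f1' : ∀ v w, m (m2 v w) w = 0)
    (f2 : ∃ v v' w, m (m2 v v') w ≠ 0)
    (f3 : ∀ v : Md a, ∃ g : Gam, orderOf g = 7 ∧ act g v = v)
    {X Z : Type} [AddCommGroup X] [Module RG X] [Finite X] [AddCommGroup Z] [Module RG Z]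
    (p : X →+ Md a →+ Z) (hp : Adm p) (q : X →ₗ[RG] Md a) (hq : Function.Surjective q)
    (i : ML →ₗ[RG] X) (hi : Function.Injective i) (hqi : ∀ x, q x = 0 ↔ ∃ n, i n = x)
    (j : Md c →ₗ[RG] Z) (hj : Function.Injective j) (hij : ∀ n y, p (i n) y = j (m n y)) :
    ∃ s : Md a →ₗ[RG] X, ∀ v, q (s v) = v := by
  classical
  have hqi0 : ∀ n, q (i n) = 0 := fun n => (hqi _).2 ⟨n, rfl⟩
  let ik : ML →ₗ[RG] LinearMap.ker q := i.codRestrict (LinearMap.ker q) hqi0
  have hikb : Function.Bijective ik := by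
    constructor
    · intro n n' h
      exact hi (congrArg Subtype.val h)
    · rintro ⟨x, hx⟩
      obtain ⟨n, rfl⟩ := (hqi x).1 hx
      exact ⟨n, rfl⟩
  let e : ML ≃ₗ[RG] LinearMap.ker q := LinearEquiv.ofBijective ik hikb
  have hHg : Hg ML (LinearMap.ker q) := by
    intro x hx
    have h1 := hx e.symm.toLinearMap
    exact e.symm.map_eq_zero_iff.1 h1
  obtain ⟨sec, κ, hs1, hs2, hs3, hs4⟩ := h5 a m2 hm2 X q hq hHg
  let κk : ML →ₗ[RG] LinearMap.ker q := κ.codRestrict (LinearMap.ker q) hs3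
  let κ' : ML →ₗ[RG] ML := e.symm.toLinearMap.comp κk
  have hκ' : ∀ l, i (κ' l) = κ l := by
    intro l
    have h1 : e (κ' l) = κk l := e.apply_symm_apply _
    exact congrArg Subtype.val h1
  rcases h7 .l .l κ' with h8 | ⟨h8, h9⟩
  · refine ⟨mkLin (AddMonoidHom.mk' sec ?_) ?_, ?_⟩
    · intro v w
      rw [hs4, ← hκ']
      have : κ' (m2 v w) = 0 := h8 _
      rw [this, map_zero, add_zero]
    · intro g x
      exact hs2 g x
    · intro v
      exact hs1 v
  · exfalso
    have hκ : ∀ l, κ l = i l := by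
      intro l
      rw [← hκ']
      congr 1
      exact h9 l
    have E1 : ∀ v, p (sec v) v = 0 := by
      intro v
      obtain ⟨g, hg1, hg2⟩ := f3 v
      exact hp.fix g (Or.inr hg1) _ _ (by rw [← hs2, hg2]) hg2
    have E2 : ∀ v w, p (sec v) w = p (sec w) v := by
      intro v w
      have h1 := E1 (v + w)
      simp only [hs4, hκ, map_add, AddMonoidHom.add_apply, E1, hij, f1, f1', map_zero, zero_add,
        add_zero] at h1
      rw [eq_neg_of_add_eq_zero_left h1, neg_eq]
    obtain ⟨v, v', w, hne⟩ := f2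
    apply hne
    apply hj
    rw [map_zero, ← hij, ← hκ]
    have h1 := E2 (v + v') w
    simp only [hs4, map_add, AddMonoidHom.add_apply] at h1
    rw [E2 v w, E2 v' w] at h1
    exact add_eq_left.1 h1

theorem M16_coreC {a a1 : Ty} (m : Md a1 → ML → Md a) (hm : Std3 a1 .l a m)
    (m2 : Md a → Md a → ML) (hm2 : Std3 a a .l m2) (hself : ∀ v, m2 v v = 0)
    (e : Md a) (he : e ≠ 0) (ε : Md a1) (heh : act gh e = e) (hes : act gs e = e)
    (htr : ∀ v : Md a, v ≠ 0 → ∃ g : Gam, act g e = v)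
    (hfix : ∀ v w : Md a, v ≠ 0 → w ≠ 0 → v ≠ w → ∀ n : Md a1,
      (∀ g : Gam, act g v = v → act g w = w → act g n = n) → n = 0)
    (huniq : ∀ v : Md a, v ≠ 0 → ∀ n, (∀ w, m n (m2 v w) = 0) → n = 0)
    (hB : ∀ B : Md a →+ Md a, B e = 0 → (∀ w, B (act gh w) = act gh (B w)) →
      (∀ w, B (act gs w) = act gs (B w)) → (∀ w, B w = 0) ∨ ∀ w, B w = m ε (m2 e w))
    {X Z : Type} [AddCommGroup X] [Module RG X] [Finite X] [AddCommGroup Z] [Module RG Z]
    (p : X →+ ML →+ Z) (hp : Adm p) (q : X →ₗ[RG] Md a) (hq : Function.Surjective q)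
    (i : Md a1 →ₗ[RG] X) (hi : Function.Injective i) (hqi : ∀ x, q x = 0 ↔ ∃ n, i n = x)
    (j : Md a →ₗ[RG] Z) (hj : Function.Injective j) (hij : ∀ n y, p (i n) y = j (m n y))
    (hGG : ∀ x w, ∃ z, j z = p x (m2 (q x) w)) :
    ∃ s : Md a →ₗ[RG] X, ∀ v, q (s v) = v := by
  classical
  have hqi0 : ∀ n, q (i n) = 0 := fun n => (hqi _).2 ⟨n, rfl⟩
  have m2add : ∀ v w w', m2 v (w + w') = m2 v w + m2 v w' := fun v w w' => hm2.add_right v w w'
  have m2zero : ∀ v, m2 v 0 = 0 := by
    intro v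
    have := m2add v 0 0
    rw [add_zero] at this
    exact left_eq_add.1 this
  -- existence of a lift over `e`
  have hex : ∃ x, q x = e ∧ ∀ w, p x (m2 e w) = 0 := by
    obtain ⟨x0, hx0⟩ := hq e
    obtain ⟨x1, h1, h2⟩ := M16_avg gh 7 (by decide) gh_7 q x0 (by rw [hx0, heh])
    rw [hx0] at h2
    have hgs3 : gs ^ 3 = 1 := by
      apply Units.ext
      decide
    set x2 := x1 + act gs x1 + act (gs ^ 2) x1 with hx2
    have hq2 : q x2 = e := by
      rw [hx2, map_add, map_add, map_act, map_act, h2, pow_two, act_mul, hes, hes, add_self,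
        zero_add]
    have hs2 : act gs x2 = x2 := by
      rw [hx2, act_add, act_add, ← act_mul gs gs, ← pow_two, ← act_mul gs (gs ^ 2), ← pow_succ',
        hgs3, act_one]
      abel
    have k1 : gh * gs = gs * gh ^ 4 := by
      apply Units.ext
      decide
    have k2 : gh * gs ^ 2 = gs ^ 2 * gh ^ 2 := by
      apply Units.ext
      decide
    have hpow : ∀ n : ℕ, act (gh ^ n) x1 = x1 := by
      intro n
      induction n with
      | zero => simp
      | succ n ih => rw [pow_succ', act_mul, ih, h1]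
    have hh2 : act gh x2 = x2 := by
      rw [hx2, act_add, act_add, h1, ← act_mul gh gs, k1, act_mul, hpow, ← act_mul gh (gs ^ 2), k2,
        act_mul, hpow]
    have hGG2 : ∀ w, ∃ z, j z = p x2 (m2 e w) := by
      intro w
      obtain ⟨z, hz⟩ := hGG x2 w
      rw [hq2] at hz
      exact ⟨z, hz⟩
    choose Bf hBf using hGG2
    let B : Md a →+ Md a := AddMonoidHom.mk' Bf (by
      intro w w'
      apply hj
      rw [map_add j, hBf, hBf, hBf, m2add, map_add (p x2)])
    have hBB : ∀ w, j (B w) = p x2 (m2 e w) := hBf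
    have b0 : B e = 0 := by
      apply hj
      rw [hBB, hself, map_zero, map_zero]
    have bh : ∀ w, B (act gh w) = act gh (B w) := by
      intro w
      apply hj
      rw [hBB, map_act, hBB, ← hp.equiv, hh2]
      congr 1
      have := hm2.equiv gh e w
      rw [heh] at this
      exact this
    have bs : ∀ w, B (act gs w) = act gs (B w) := by
      intro w
      apply hj
      rw [hBB, map_act, hBB, ← hp.equiv, hs2]
      congr 1
      have := hm2.equiv gs e w
      rw [hes] at this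
      exact this
    rcases hB B b0 bh bs with h3 | h3
    · exact ⟨x2, hq2, fun w => by rw [← hBB, h3, map_zero]⟩
    · refine ⟨x2 + i ε, by rw [map_add, hqi0, add_zero, hq2], fun w => ?_⟩
      rw [map_add, AddMonoidHom.add_apply, ← hBB, hij, h3, add_self]
  have hex' : ∀ v, v ≠ 0 → ∃ x, q x = v ∧ ∀ w, p x (m2 v w) = 0 := by
    intro v hv
    obtain ⟨x, hx1, hx2⟩ := hex
    obtain ⟨g, hg⟩ := htr v hv
    refine ⟨act g x, by rw [map_act, hx1, hg], ?_⟩
    intro w
    have h1 : m2 v w = act g (m2 e (act g⁻¹ w)) := by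
      have := hm2.equiv g e (act g⁻¹ w)
      rw [hg, act_act_inv] at this
      exact this
    rw [h1, hp.equiv, hx2, act_zero]
  have huni : ∀ v, v ≠ 0 → ∀ x x', q x = v → q x' = v → (∀ w, p x (m2 v w) = 0) →
      (∀ w, p x' (m2 v w) = 0) → x = x' := by
    intro v hv x x' h1 h2 h3 h4
    obtain ⟨n, hn⟩ := (hqi (x - x')).1 (by rw [map_sub, h1, h2, sub_self])
    have h5 : n = 0 := by
      apply huniq v hv
      intro w
      apply hj
      rw [← hij, hn, map_sub, AddMonoidHom.sub_apply, h3, h4, sub_zero, map_zero]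
    rw [h5, map_zero] at hn
    exact sub_eq_zero.1 hn.symm
  choose S hS1 hS2 using hex'
  let sec : Md a → X := fun v => if hv : v = 0 then 0 else S v hv
  have sec0 : sec 0 = 0 := dif_pos rfl
  have secS : ∀ v (hv : v ≠ 0), sec v = S v hv := fun v hv => dif_neg hv
  have hq' : ∀ v, q (sec v) = v := by
    intro v
    by_cases hv : v = 0
    · rw [hv, sec0, map_zero]
    · rw [secS v hv, hS1]
  have hp' : ∀ v, v ≠ 0 → ∀ w, p (sec v) (m2 v w) = 0 := by
    intro v hv w
    rw [secS v hv, hS2]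
  have heq : ∀ g v, sec (act g v) = act g (sec v) := by
    intro g v
    by_cases hv : v = 0
    · rw [hv, act_zero, sec0, act_zero]
    · have hgv : act g v ≠ 0 := by
        intro h
        apply hv
        apply act_inj g
        rw [h, act_zero]
      apply huni (act g v) hgv
      · exact hq' _
      · rw [map_act, hq']
      · exact hp' _ hgv
      · intro w
        have h1 : m2 (act g v) w = act g (m2 v (act g⁻¹ w)) := by
          have := hm2.equiv g v (act g⁻¹ w)
          rw [act_act_inv] at this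
          exact this
        rw [h1, hp.equiv, hp' v hv, act_zero]
  have hadd : ∀ v w, sec (v + w) = sec v + sec w := by
    intro v w
    by_cases hv : v = 0
    · rw [hv, zero_add, sec0, zero_add]
    by_cases hw : w = 0
    · rw [hw, add_zero, sec0, add_zero]
    by_cases hvw : v = w
    · rw [hvw, add_self, sec0, add_self]
    obtain ⟨n, hn⟩ := (hqi (sec (v + w) + (sec v + sec w))).1 (by
      rw [map_add, map_add, hq', hq', hq', add_self])
    have h0 : n = 0 := by
      apply hfix v w hv hw hvw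
      intro g hg1 hg2
      apply hi
      rw [map_act, hn, act_add, act_add, ← heq, ← heq, ← heq, act_add, hg1, hg2]
    rw [h0, map_zero] at hn
    rw [eq_neg_of_add_eq_zero_left hn.symm, neg_eq]
  exact ⟨mkLin (AddMonoidHom.mk' sec hadd) heq, hq'⟩

theorem M16_gg (h3 : S_GG) {a : Ty} (ha : a ≠ .l) {a1 : Ty} (m : Md a1 → ML → Md a)
    (m2 : Md a → Md a → ML) (hm2 : Std3 a a .l m2)
    {X Z : Type} [AddCommGroup X] [Module RG X] [Finite X] [AddCommGroup Z] [Module RG Z]
    (p : X →+ ML →+ Z) (hp : Adm p) (q : X →ₗ[RG] Md a) (hq : Function.Surjective q)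
    (i : Md a1 →ₗ[RG] X) (hqi : ∀ x, q x = 0 ↔ ∃ n, i n = x)
    (j : Md a →ₗ[RG] Z) (hij : ∀ n y, p (i n) y = j (m n y)) :
    ∀ x w, ∃ z, j z = p x (m2 (q x) w) := by
  intro x w
  obtain ⟨pb, h1, h2⟩ := M16_quoP p hp q hq (LinearMap.range j).mkQ (by
    intro x hx y
    obtain ⟨n, rfl⟩ := (hqi x).1 hx
    rw [hij]
    exact (Submodule.Quotient.mk_eq_zero _).2 ⟨_, rfl⟩)
  have key : pb (q x) (m2 (q x) w) = 0 := by
    have h2' : @Adm (Md a) (Md .l) (Z ⧸ LinearMap.range j) _ _ _ _ _ _ pb := h2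
    rcases h3 a .l (Z ⧸ LinearMap.range j) pb h2' with h4 | ⟨c, m', f, hm', h4⟩
    · exact h4 _ _
    · have h5 := h4 (q x) (m2 (q x) w)
      refine h5.trans ?_
      have h6 : m' (q x) (m2 (q x) w) = 0 := by
        cases hm'
        · cases hm2
          exact lv_wdg_self _ _
        · cases hm2
          exact ld_wdgD_self _ _
      rw [h6, map_zero]
  rw [h1] at key
  exact (Submodule.Quotient.mk_eq_zero _).1 key

end Pool.Agent.A8
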